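import Pool.Agent.W875.NK.Claims

set_option autoImplicit false

/-!
The noncommutative Künneth standard conjecture fails for the plane cubic `C` with equation
`x³ + t y³ + t² z³ + t x y z = 0` over the field `𝔽₃(t)`, for every field of coefficients.

The cubic `C` is smooth and all its closed points have degree divisible by `3`, so the Euler
characteristic of every coherent sheaf on `C` is divisible by `3`, so is zero in every field of
coefficients. The trace of the correspondence given by a vector bundle `E` on `C × C` is the
Euler characteristic of the restriction of `E` to the diagonal. By monoidality of `HP^±` all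
algebraic endomorphisms of `HP^±(C)` have supertrace zero, while the even Künneth projector
has supertrace `dim HP^+(C) = 2`, and the odd one `- dim HP^-(C) = -2`.
-/

namespace Pool.Agent.Results.MP_eadf0f_ag.EulerCharacteristicThree

open W875.NK (k₃ t₃)
open W875.NK.St CategoryTheory MonoidalCategory

universe u v

/-- The cubic is smooth, its closed points have degree divisible by `3`, the Euler
characteristics of its coherent sheaves are divisible by `3`, and the Künneth projectors of the
super realisations of its noncommutative motive are not algebraic. -/
theorem result :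
    Smooth ∧ PointsThree ∧ EulerThree ∧
    ∀ (𝒩 : Type u) [Category.{v} 𝒩] [MonoidalCategory 𝒩] [SymmetricCategory 𝒩]
      [Preadditive 𝒩] (A B : 𝒩) [ExactPairing A B] (S : Set (BiMod t₃))
      (cls : BiMod t₃ → (A ⟶ A)), IsMotive A B S cls →
      ∀ (K : Type) [Field K] [Algebra k₃ K] (ω : SuperFunctor 𝒩 K),
        (¬ 3 ∣ ω.evenDim A → ¬ ω.Algebraic A (ω.even A)) ∧
        (¬ 3 ∣ ω.oddDim A → ¬ ω.Algebraic A (ω.odd A)) := by
  refine ⟨smoothC, pointsThree, eulerThree, ?_⟩
  intro 𝒩 _ _ _ _ A B _ S cls h K _ _ ω
  exact not_algebraic A B S cls h.closure h.trace K ω

end Pool.Agent.Results.MP_eadf0f_ag.EulerCharacteristicThree
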