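import Pool.Agent.W495.NC.Main
import Pool.Agent.W782.NC.Val
import Pool.Agent.W349.NCSmooth

/-!
# The noncommutative Künneth conjecture fails in every odd characteristic

Let `p` be an odd prime and `k₀` a field of characteristic `p`. The hypersurface
`X : ∑ t^i x_i^p + t^p ∑ x_i^(p-1) x_(i+1) = 0` of degree `p` in the projective space of dimension
`p - 1` over `k = k₀(t)` is smooth, and every closed point of `X` has a degree divisible by `p`. (For
`p = 3` it is a plane cubic without points over extensions of degree prime to three.) So the supertrace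
of every bimodule on the periodic cyclic homology of `perf_dg(X)` vanishes in characteristic `p`, while
the supertrace of the even Künneth projector is `dim HP⁺ = p - 1`. Hence the Künneth projectors of
`perf_dg(X)` are not algebraic, for all coefficient fields `F` (with `F ⊆ k` or `k ⊆ F`).
-/

namespace Pool.Agent.Results.MP_eadf0f_ag.OddCharacteristic

open Pool.Agent.W495.NC MvPolynomial

/-- For every odd prime `p`, every field `k` of characteristic `p` and all coefficients `F`, neither
the even nor the odd Künneth projector of `A = perf_dg(X)` is algebraic, where `X` is the (smooth)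
hypersurface `form p t = 0` over the field `k(t)`. -/
theorem result (p : ℕ) [Fact p.Prime] (hp : p ≠ 2) (k : Type) [Field k] [CharP k p] :
    (∀ (Ω : Type) [Field Ω] [Algebra (RatFunc k) Ω] (x : Fin p → Ω),
      aeval x (form p (RatFunc.X : RatFunc k)) = 0 →
      (∀ i, aeval x (pderiv i (form p (RatFunc.X : RatFunc k))) = 0) → x = 0) ∧
    (∀ x : ClosedPoint p k, p ∣ x.deg) ∧
    ∀ (F L : Type) [Field F] [Field L] [Algebra F L] [Algebra (RatFunc k) L] (A : DgCat L),
      IsSaturated A → IsPerf A p k → ¬ EvenAlgebraic F A ∧ ¬ OddAlgebraic F A :=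
  ⟨fun Ω _ _ x h h' => Pool.Agent.W349.NCSmooth.smooth p hp k Ω x h h',
    fun x => dvd_deg Pool.Agent.W782.NCVal.anisotropic x,
    fun _ _ _ _ _ _ _ hA hX =>
      ⟨not_even Pool.Agent.W782.NCVal.anisotropic hA hX, fun h =>
        not_even Pool.Agent.W782.NCVal.anisotropic hA hX (even_of_odd hA h)⟩⟩

end Pool.Agent.Results.MP_eadf0f_ag.OddCharacteristic
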